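import Mathlib
import Pool.Agent.N293.CD5

/-!
# MP_3119c3_an, Q1: the answer is negative

For every `n ≥ 3` there is an irreducible complex symmetric `n × n` matrix which is unitarily
equivalent to a truncated Toeplitz operator but which is not the matrix of any truncated Toeplitz
operator with respect to a modified Aleksandrov-Clark basis.

The definitions are in `Pool/Agent/N293/CD1.lean`.
-/

set_option autoImplicit false

open Matrix

theorem Pool.Agent.Results.MP_3119c3_an.NotClark.result (n : ℕ) (hn : 3 ≤ n) :
    ∃ M : Matrix (Fin n) (Fin n) ℂ,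
      Mᵀ = M ∧ Pool.Agent.N293.CD.Irred M ∧ Pool.Agent.N293.CD.UETTO M ∧
        ¬ Pool.Agent.N293.CD.HasClarkForm M :=
  Pool.Agent.N293.CD.final n hn
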